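import Pool.Agent.H29.PJ4

set_option autoImplicit false

namespace Pool.Agent.Results.MP_c19a8f_an.NoJointRec

open Filter Topology

/-- Every two-sided orbit of `T` is dense. -/
def Minimal {X : Type} [TopologicalSpace X] (T : X ≃ₜ X) : Prop :=
  ∀ x : X, Dense (Set.range fun n : ℤ => (T ^ n) x)

/-- Some integers `n i` with `|n i| → ∞` have `T^(p(n i)) x → x` and `S^(q(n i)) x → x`. -/
def JointRec {X : Type} [TopologicalSpace X] (T S : X ≃ₜ X) (p q : Polynomial ℤ) (x : X) : Prop :=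
  ∃ n : ℕ → ℤ, Tendsto (fun i => |n i|) atTop atTop ∧
    Tendsto (fun i => (T ^ p.eval (n i)) x) atTop (𝓝 x) ∧
    Tendsto (fun i => (S ^ q.eval (n i)) x) atTop (𝓝 x)

open Pool.Agent.H29.PJ Polynomial in
theorem result (p q : Polynomial ℤ) (hp : 2 ≤ p.natDegree) (hq : 2 ≤ q.natDegree) :
    ∃ (X : Type) (_ : MetricSpace X) (_ : CompactSpace X) (_ : Nonempty X) (T S : X ≃ₜ X),
      Minimal T ∧ Minimal S ∧ ∀ x : X, ¬ JointRec T S p q x := by
  have hc : ∀ r : ℤ[X], 2 ≤ r.natDegree → 2 ≤ (r.comp (-X)).natDegree := fun r hr => by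
    simpa [natDegree_comp] using hr
  obtain ⟨N, ⟨h1, h2⟩, h3, h4⟩ := (((poly_sparse p hp).and (poly_sparse q hq)).and
    ((poly_sparse _ (hc p hp)).and (poly_sparse _ (hc q hq)))).exists
  let f : Bool × Bool → ℕ → ℤ := fun e n =>
    (if e.2 then q else p).eval (if e.1 then -((N : ℤ) + n) else N + n)
  have hf : ∀ e, Sparse (f e) := by
    rintro ⟨_ | _, _ | _⟩
    · exact h1
    · exact h2
    · simpa [f, eval_comp] using h3
    · simpa [f, eval_comp] using h4
  obtain ⟨X, i1, i2, i3, T, S, hT, hS, h⟩ := main hf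
  refine ⟨X, i1, i2, i3, T, S, hT, hS, fun x ⟨n, a1, a2, a3⟩ => ?_⟩
  obtain ⟨U, hU, hn⟩ := h x
  obtain ⟨i, ⟨b1, b2⟩, b3⟩ := (((a1.eventually_ge_atTop N).and (a2 hU)).and (a3 hU)).exists
  rcases le_total 0 (n i) with c | c
  · rw [abs_of_nonneg c] at b1
    have e : n i = N + (n i - N).toNat := by omega
    refine hn false (n i - N).toNat ⟨?_, ?_⟩
    · simp only [f, Bool.false_eq_true, if_false, ← e]; exact b2
    · simp only [f, Bool.false_eq_true, if_false, if_true, ← e]; exact b3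
  · rw [abs_of_nonpos c] at b1
    have e : n i = -(N + (-n i - N).toNat) := by omega
    refine hn true (-n i - N).toNat ⟨?_, ?_⟩
    · simp only [f, Bool.false_eq_true, if_false, if_true, ← e]; exact b2
    · simp only [f, if_true, ← e]; exact b3

end Pool.Agent.Results.MP_c19a8f_an.NoJointRec
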